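import Pool.Agent.H93.TR.Asym

/-!
MP_b12e0e_ag (number of typical ranks of real tensors): for factors of bounded dimensions all
typical ranks, and the maximal rank, are equal to the smallest possible value up to a factor
exponentially close to one.
-/

set_option autoImplicit false

open Set Function Module

namespace Pool.Agent.Results.MP_b12e0e_ag.AsymptoticRank

/-- The real tensor `T` of format `d` is a sum of `r` products of vectors (zero vectors being
allowed). -/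
def IsSum {n : ℕ} (d : Fin n → ℕ) (T : ((i : Fin n) → Fin (d i)) → ℝ) (r : ℕ) : Prop :=
  ∃ v : Fin r → (i : Fin n) → Fin (d i) → ℝ, T = fun x => ∑ k : Fin r, ∏ i : Fin n, v k i (x i)

/-- `r` is a typical rank of the format `d`: the set of the tensors which are sums of `r` products,
but not of fewer, has nonempty interior. -/
def Typical {n : ℕ} (d : Fin n → ℕ) (r : ℕ) : Prop :=
  (interior {T : ((i : Fin n) → Fin (d i)) → ℝ | IsSum d T r ∧ ∀ s < r, ¬ IsSum d T s}).Nonempty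

/-- The smallest possible value `N / (1 + ∑ (d i - 1))` of a typical rank, where `N = ∏ d i`. -/
noncomputable def low {n : ℕ} (d : Fin n → ℕ) : ℝ :=
  (∏ i, (d i : ℝ)) / (∑ i, ((d i : ℝ) - 1) + 1)

open Pool.Agent.H19.TR Pool.Agent.H93.TR

private theorem typical_le {n : ℕ} {d : Fin n → ℕ} {R : ℕ} (h : ∀ T, IsSum d T R) {r : ℕ}
    (hr : Typical d r) : r ≤ R := by
  obtain ⟨T, hT⟩ := hr
  by_contra hlt
  push Not at hlt
  exact (interior_subset hT).2 R hlt (h T)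

private theorem lower {n : ℕ} (d : Fin n → ℕ) (hd : ∀ i, 1 ≤ d i) (i₀ : Fin n)
    (r : ℕ) (hr : Typical d r) : ∏ i, d i ≤ r * (∑ i, (d i - 1) + 1) := by
  have : ∀ j, Nonempty (Oth d i₀ j) := fun j => ⟨⟨0, hd j.1⟩⟩
  have key : Fintype.card ((j : {j : Fin n // j ≠ i₀}) → Oth d i₀ j) * d i₀ ≤
      r * (sdim (Oth d i₀) + d i₀) := by
    by_contra hlt
    push Not at hlt
    have hden : Dense {T : ((i : Fin n) → Fin (d i)) → ℝ |
        slices d i₀ T ∈ (RLE (Oth d i₀) (Fin (d i₀)) r)ᶜ} :=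
      (dense_compl_RLE (α := Oth d i₀) (β := Fin (d i₀)) r
        (by rw [Fintype.card_fin]; exact hlt)).preimage (slices d i₀).isOpenMap
    obtain ⟨T, hTi, hT⟩ := hden.inter_open_nonempty _ isOpen_interior hr
    exact hT ((slices_mem_RLE d i₀ T r).2 (interior_subset hTi).1)
  rw [card_Oth, sdim_Oth, mul_comm, Finset.mul_prod_erase _ _ (Finset.mem_univ i₀)] at key
  rw [← Finset.add_sum_erase _ _ (Finset.mem_univ i₀)]
  have := hd i₀
  refine key.trans (le_of_eq ?_)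
  congr 1
  omega

private theorem lower_real {n : ℕ} (d : Fin n → ℕ) (hd : ∀ i, 1 ≤ d i) (i₀ : Fin n)
    (r : ℕ) (hr : Typical d r) : low d ≤ r := by
  have h1 := lower d hd i₀ r hr
  have h2 : ((∏ i, d i : ℕ) : ℝ) ≤ ((r * (∑ i, (d i - 1) + 1) : ℕ) : ℝ) := by exact_mod_cast h1
  have h3 : ((∑ i, (d i - 1) : ℕ) : ℝ) = ∑ i, ((d i : ℝ) - 1) := by
    rw [Nat.cast_sum]
    exact Finset.sum_congr rfl fun i _ => by rw [Nat.cast_sub (hd i), Nat.cast_one]
  push_cast at h2 h3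
  rw [h3] at h2
  have h4 : (0 : ℝ) ≤ ∑ i, ((d i : ℝ) - 1) :=
    Finset.sum_nonneg fun i _ => by
      have : (1 : ℝ) ≤ d i := by exact_mod_cast hd i
      linarith
  unfold low
  rw [div_le_iff₀ (by linarith)]
  exact h2

/-- the upper bound -/
private theorem upper (e n : ℕ) (he : 1 ≤ e) (hn : 1 ≤ n) (d : Fin n → ℕ)
    (hd : ∀ i, 2 ≤ d i ∧ d i ≤ 2 ^ e) :
    ∃ R : ℕ, (R : ℝ) ≤ low d + (n + 2) * (∏ i, (d i : ℝ)) / 2 ^ (n / (2 ^ e * (2 ^ e - 1))) ∧
      ∀ T, IsSum d T R := by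
  rcases Nat.eq_zero_or_pos (n / (2 ^ e * (2 ^ e - 1))) with h0 | hm
  · rw [h0, pow_zero, div_one]
    have : Nonempty (Fin n) := ⟨⟨0, hn⟩⟩
    have hc : Fintype.card ((i : Fin n) → Fin (d i)) = ∏ i, d i := by
      rw [Fintype.card_pi]
      exact Finset.prod_congr rfl fun i _ => Fintype.card_fin _
    refine ⟨∏ i, d i, ?_, fun T => ?_⟩
    · have h1 : (0 : ℝ) ≤ ∏ i, (d i : ℝ) := Finset.prod_nonneg fun i _ => Nat.cast_nonneg _
      have h4 : (0 : ℝ) ≤ ∑ i, ((d i : ℝ) - 1) :=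
        Finset.sum_nonneg fun i _ => by
          have : (2 : ℝ) ≤ d i := by exact_mod_cast (hd i).1
          linarith
      have h2 : 0 ≤ low d := div_nonneg h1 (by linarith)
      have h3 : (0 : ℝ) ≤ n := Nat.cast_nonneg _
      push_cast
      nlinarith
    · have h := triv_mem_Sums (α := fun i => Fin (d i)) T
      rw [hc] at h
      obtain ⟨v, hv⟩ := h
      refine ⟨v, ?_⟩
      rw [hv]
      funext x
      rw [Finset.sum_apply]
      rfl
  · obtain ⟨t, ht⟩ : ∃ t, n = n / (2 ^ e * (2 ^ e - 1)) + t :=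
      ⟨n - n / (2 ^ e * (2 ^ e - 1)), by have := Nat.div_le_self n (2 ^ e * (2 ^ e - 1)); omega⟩
    generalize hmdef : n / (2 ^ e * (2 ^ e - 1)) = m at hm ht ⊢
    subst ht
    obtain ⟨R, hR, hT⟩ := upper_split e m t he hm hmdef.symm d hd
    refine ⟨R, hR, fun T => ?_⟩
    obtain ⟨v, hv⟩ := hT T
    refine ⟨v, ?_⟩
    rw [hv]
    funext x
    rw [Finset.sum_apply]
    rfl

/-- Let `1 ≤ e`, `1 ≤ n`, `2 ≤ d i ≤ 2 ^ e` (`i < n`), `N = ∏ d i`, `low = N / (1 + ∑ (d i - 1))`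
and `m = n / (2 ^ e * (2 ^ e - 1))` (rounded down). Then all typical ranks of the real
`d 0 x .. x d (n-1)` tensors are between `low` and `low + (n + 2) * N / 2 ^ m`, and indeed all
these tensors are sums of `R` products, for some `R ≤ low + (n + 2) * N / 2 ^ m`. -/
theorem result (e n : ℕ) (he : 1 ≤ e) (hn : 1 ≤ n) (d : Fin n → ℕ)
    (hd : ∀ i, 2 ≤ d i ∧ d i ≤ 2 ^ e) :
    (∀ r, Typical d r → low d ≤ r ∧
      r ≤ low d + (n + 2) * (∏ i, (d i : ℝ)) / 2 ^ (n / (2 ^ e * (2 ^ e - 1)))) ∧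
    ∃ R : ℕ, (R : ℝ) ≤ low d + (n + 2) * (∏ i, (d i : ℝ)) / 2 ^ (n / (2 ^ e * (2 ^ e - 1))) ∧
      ∀ T, IsSum d T R := by
  obtain ⟨R, hR, hT⟩ := upper e n he hn d hd
  refine ⟨fun r hr => ⟨?_, ?_⟩, R, hR, hT⟩
  · exact lower_real d (fun i => by have := (hd i).1; omega) ⟨0, hn⟩ r hr
  · have h2 : (r : ℝ) ≤ R := by exact_mod_cast typical_le hT hr
    exact h2.trans hR

end Pool.Agent.Results.MP_b12e0e_ag.AsymptoticRank
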