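import Pool.Agent.H19.TR.Transfer

/-!
MP_b12e0e_ag (number of typical ranks of real tensors): if one of the factors is large compared
with the others, there are at most two typical ranks, and they are known up to one unit.
-/

set_option autoImplicit false

open Set Function Module

namespace Pool.Agent.Results.MP_b12e0e_ag.LargeFactor

/-- The real tensor `T` of format `d` is a sum of `r` products of vectors (zero vectors being
allowed). -/
def IsSum {n : ℕ} (d : Fin n → ℕ) (T : ((i : Fin n) → Fin (d i)) → ℝ) (r : ℕ) : Prop :=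
  ∃ v : Fin r → (i : Fin n) → Fin (d i) → ℝ, T = fun x => ∑ k : Fin r, ∏ i : Fin n, v k i (x i)

/-- `r` is a typical rank of the format `d`: the set of the tensors which are sums of `r` products,
but not of fewer, has nonempty interior. -/
def Typical {n : ℕ} (d : Fin n → ℕ) (r : ℕ) : Prop :=
  (interior {T : ((i : Fin n) → Fin (d i)) → ℝ | IsSum d T r ∧ ∀ s < r, ¬ IsSum d T s}).Nonempty

open Pool.Agent.H19.TR

private theorem dense_preimage {n : ℕ} (d : Fin n → ℕ) (i₀ : Fin n)
    {D : Set (Fin (d i₀) → Ten (Oth d i₀))} (hD : Dense D) :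
    Dense {T : ((i : Fin n) → Fin (d i)) → ℝ | slices d i₀ T ∈ D} :=
  hD.preimage (slices d i₀).isOpenMap

private theorem upper {n : ℕ} (hn : 2 ≤ n) (d : Fin n → ℕ) (hd : ∀ i, 1 ≤ d i) (i₀ : Fin n)
    (R : ℕ) (h1 : Fintype.card ((j : {j : Fin n // j ≠ i₀}) → Oth d i₀ j) + 1 ≤
      sdim (Oth d i₀) + R) (h2 : d i₀ + 1 ≤ R) (r : ℕ) (hr : Typical d r) : r ≤ R := by
  have : Nontrivial (Fin n) := Fin.nontrivial_iff_two_le.2 hn
  obtain ⟨i₁, hi₁⟩ := exists_ne i₀
  have : Nonempty {j : Fin n // j ≠ i₀} := ⟨⟨i₁, hi₁⟩⟩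
  have : ∀ j, Nonempty (Oth d i₀ j) := fun j => ⟨⟨0, hd j.1⟩⟩
  have hden := dense_preimage d i₀ (dense_RLE (α := Oth d i₀) (β := Fin (d i₀)) R h1
    (by rw [Fintype.card_fin]; exact h2))
  obtain ⟨T, hTi, hT⟩ := hden.inter_open_nonempty _ isOpen_interior hr
  by_contra hlt
  push Not at hlt
  exact (interior_subset hTi).2 R hlt ((slices_mem_RLE d i₀ T R).1 hT)

private theorem lower {n : ℕ} (d : Fin n → ℕ) (hd : ∀ i, 1 ≤ d i) (i₀ : Fin n)
    (r : ℕ) (hr : Typical d r) :
    Fintype.card ((j : {j : Fin n // j ≠ i₀}) → Oth d i₀ j) * d i₀ ≤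
      r * (sdim (Oth d i₀) + d i₀) := by
  have : ∀ j, Nonempty (Oth d i₀ j) := fun j => ⟨⟨0, hd j.1⟩⟩
  by_contra hlt
  push Not at hlt
  have hden := dense_preimage d i₀ (dense_compl_RLE (α := Oth d i₀) (β := Fin (d i₀)) r
    (by rw [Fintype.card_fin]; exact hlt))
  obtain ⟨T, hTi, hT⟩ := hden.inter_open_nonempty _ isOpen_interior hr
  exact hT ((slices_mem_RLE d i₀ T r).2 (interior_subset hTi).1)

private theorem lower_min {n : ℕ} (d : Fin n → ℕ) (i₀ : Fin n)
    (r : ℕ) (hr : Typical d r) :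
    min (Fintype.card ((j : {j : Fin n // j ≠ i₀}) → Oth d i₀ j)) (d i₀) ≤ r := by
  have hden := dense_preimage d i₀ (dense_indep (α := Oth d i₀) (β := Fin (d i₀)))
  obtain ⟨T, hTi, hT⟩ := hden.inter_open_nonempty _ isOpen_interior hr
  have h1 := finrank_le_of_RLE ((slices_mem_RLE d i₀ T r).2 (interior_subset hTi).1)
  have h2 : min (Fintype.card ((j : {j : Fin n // j ≠ i₀}) → Oth d i₀ j))
    (Fintype.card (Fin (d i₀))) ≤ finrank ℝ (Submodule.span ℝ (range (slices d i₀ T))) := hT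
  rw [Fintype.card_fin] at h2
  exact h2.trans h1

private theorem upper_card {n : ℕ} (d : Fin n → ℕ) (i₀ : Fin n)
    (r : ℕ) (hr : Typical d r) :
    r ≤ Fintype.card ((j : {j : Fin n // j ≠ i₀}) → Oth d i₀ j) := by
  obtain ⟨T, hT⟩ := hr
  by_contra hlt
  push Not at hlt
  refine (interior_subset hT).2 _ hlt ((slices_mem_RLE d i₀ T _).1 ?_)
  rw [RLE_univ]
  exact mem_univ _

/-- Fix a factor `i₀` of dimension `p = d i₀`, let `N` be the product of the other dimensions and
`s` the sum of the other dimensions minus one. Every typical rank `r` satisfies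
`N * p ≤ r * (s + p)` and `r ≤ max (N - s) p + 1`. If `(s + 1) * (N - s - p) < N` there are at most
two typical ranks; if moreover `p ≤ N - s` they are among `N - s` and `N - s + 1`. If
`N - s ≤ p < N` they are among `p` and `p + 1`, and if `N ≤ p` only `N` is typical. -/
theorem result (n : ℕ) (hn : 2 ≤ n) (d : Fin n → ℕ) (hd : ∀ i, 1 ≤ d i) (i₀ : Fin n)
    (N s : ℕ) (hN : N = ∏ i ∈ Finset.univ.erase i₀, d i)
    (hs : s = ∑ i ∈ Finset.univ.erase i₀, (d i - 1)) :
    ((s + 1) * (N - s) < N + (s + 1) * d i₀ → {r : ℕ | Typical d r}.encard ≤ 2) ∧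
    (d i₀ ≤ N - s → (s + 1) * (N - s) < N + (s + 1) * d i₀ →
      ∀ r, Typical d r → r = N - s ∨ r = N - s + 1) ∧
    (N - s ≤ d i₀ → d i₀ < N → ∀ r, Typical d r → r = d i₀ ∨ r = d i₀ + 1) ∧
    (N ≤ d i₀ → ∀ r, Typical d r → r = N) ∧
    ∀ r, Typical d r → N * d i₀ ≤ r * (s + d i₀) ∧ r ≤ max (N - s) (d i₀) + 1 := by
  have hcard := card_Oth d i₀
  have hsdim := sdim_Oth d i₀
  rw [← hN] at hcard
  rw [← hs] at hsdim
  have hsN : s + 1 ≤ N := by
    rw [hN, hs]
    exact sum_lt_prod _ d hd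
  obtain ⟨q, hq⟩ : ∃ q, N = s + q := ⟨N - s, by omega⟩
  have hNs : N - s = q := by omega
  -- the general bounds
  have hup : ∀ r, Typical d r → r ≤ max (N - s) (d i₀) + 1 := by
    intro r hr
    refine upper hn d hd i₀ _ ?_ ?_ r hr
    · rw [hcard, hsdim]
      have := le_max_left (N - s) (d i₀)
      omega
    · have := le_max_right (N - s) (d i₀)
      omega
  have hlow : ∀ r, Typical d r → N * d i₀ ≤ r * (s + d i₀) := by
    intro r hr
    have := lower d hd i₀ r hr
    rwa [hcard, hsdim] at this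
  have hmin : ∀ r, Typical d r → min N (d i₀) ≤ r := by
    intro r hr
    have := lower_min d i₀ r hr
    rwa [hcard] at this
  have hcd : ∀ r, Typical d r → r ≤ N := by
    intro r hr
    have := upper_card d i₀ r hr
    rwa [hcard] at this
  -- the three ranges
  have hA : d i₀ ≤ N - s → (s + 1) * (N - s) < N + (s + 1) * d i₀ →
      ∀ r, Typical d r → r = N - s ∨ r = N - s + 1 := by
    intro hp hw r hr
    have h1 := hup r hr
    have h2 := hlow r hr
    rw [max_eq_left hp] at h1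
    rw [hNs] at hp hw h1 ⊢
    by_contra hcon
    have h3 : r + 1 ≤ q := by omega
    have h4 : (r + 1) * (s + d i₀) ≤ q * (s + d i₀) := Nat.mul_le_mul_right _ h3
    rw [hq] at h2 hw
    nlinarith
  have hB : N - s ≤ d i₀ → d i₀ < N → ∀ r, Typical d r → r = d i₀ ∨ r = d i₀ + 1 := by
    intro hp hpN r hr
    have h1 := hup r hr
    have h2 := hmin r hr
    rw [max_eq_right hp] at h1
    rw [min_eq_right hpN.le] at h2
    omega
  have hC : N ≤ d i₀ → ∀ r, Typical d r → r = N := by
    intro hp r hr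
    have h1 := hcd r hr
    have h2 := hmin r hr
    rw [min_eq_left hp] at h2
    omega
  refine ⟨fun hw => ?_, hA, hB, hC, fun r hr => ⟨hlow r hr, hup r hr⟩⟩
  have hpair : ∀ a b : ℕ, {r : ℕ | Typical d r} ⊆ {a, b} → {r : ℕ | Typical d r}.encard ≤ 2 :=
    fun a b h => (encard_le_encard h).trans ((encard_insert_le {b} a).trans (by
      rw [encard_singleton]
      norm_num))
  rcases le_total (d i₀) (N - s) with hp | hp
  · exact hpair (N - s) (N - s + 1) fun r hr => hA hp hw r hr
  · rcases lt_or_ge (d i₀) N with hpN | hpN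
    · exact hpair (d i₀) (d i₀ + 1) fun r hr => hB hp hpN r hr
    · exact hpair N N fun r hr => Or.inl (hC hpN r hr)

end Pool.Agent.Results.MP_b12e0e_ag.LargeFactor
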