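import Pool.Agent.H93.TR.Many

/-!
MP_b12e0e_ag (number of typical ranks of real tensors): if the dimension `N` of the space of
tensors is at least a large power of the dimension `1 + s` of the Segre cone, all typical ranks,
and the maximal rank, are almost equal to the smallest possible value `N / (1 + s)`.
-/

set_option autoImplicit false

open Set Function Module

namespace Pool.Agent.Results.MP_b12e0e_ag.ManyFactors

/-- The real tensor `T` of format `d` is a sum of `r` products of vectors (zero vectors being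
allowed). -/
def IsSum {n : ℕ} (d : Fin n → ℕ) (T : ((i : Fin n) → Fin (d i)) → ℝ) (r : ℕ) : Prop :=
  ∃ v : Fin r → (i : Fin n) → Fin (d i) → ℝ, T = fun x => ∑ k : Fin r, ∏ i : Fin n, v k i (x i)

/-- `r` is a typical rank of the format `d`: the set of the tensors which are sums of `r` products,
but not of fewer, has nonempty interior. -/
def Typical {n : ℕ} (d : Fin n → ℕ) (r : ℕ) : Prop :=
  (interior {T : ((i : Fin n) → Fin (d i)) → ℝ | IsSum d T r ∧ ∀ s < r, ¬ IsSum d T s}).Nonempty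

/-- The smallest possible value `N / (1 + ∑ (d i - 1))` of a typical rank, where `N = ∏ d i`. -/
noncomputable def low {n : ℕ} (d : Fin n → ℕ) : ℝ :=
  (∏ i, (d i : ℝ)) / (∑ i, ((d i : ℝ) - 1) + 1)

open Pool.Agent.H19.TR Pool.Agent.H93.TR

private theorem typical_le {n : ℕ} {d : Fin n → ℕ} {R : ℕ} (h : ∀ T, IsSum d T R) {r : ℕ}
    (hr : Typical d r) : r ≤ R := by
  obtain ⟨T, hT⟩ := hr
  by_contra hlt
  push Not at hlt
  exact (interior_subset hT).2 R hlt (h T)

private theorem lower {n : ℕ} (d : Fin n → ℕ) (hd : ∀ i, 1 ≤ d i) (i₀ : Fin n)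
    (r : ℕ) (hr : Typical d r) : ∏ i, d i ≤ r * (∑ i, (d i - 1) + 1) := by
  have : ∀ j, Nonempty (Oth d i₀ j) := fun j => ⟨⟨0, hd j.1⟩⟩
  have key : Fintype.card ((j : {j : Fin n // j ≠ i₀}) → Oth d i₀ j) * d i₀ ≤
      r * (sdim (Oth d i₀) + d i₀) := by
    by_contra hlt
    push Not at hlt
    have hden : Dense {T : ((i : Fin n) → Fin (d i)) → ℝ |
        slices d i₀ T ∈ (RLE (Oth d i₀) (Fin (d i₀)) r)ᶜ} :=
      (dense_compl_RLE (α := Oth d i₀) (β := Fin (d i₀)) r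
        (by rw [Fintype.card_fin]; exact hlt)).preimage (slices d i₀).isOpenMap
    obtain ⟨T, hTi, hT⟩ := hden.inter_open_nonempty _ isOpen_interior hr
    exact hT ((slices_mem_RLE d i₀ T r).2 (interior_subset hTi).1)
  rw [card_Oth, sdim_Oth, mul_comm, Finset.mul_prod_erase _ _ (Finset.mem_univ i₀)] at key
  rw [← Finset.add_sum_erase _ _ (Finset.mem_univ i₀)]
  have := hd i₀
  refine key.trans (le_of_eq ?_)
  congr 1
  omega

private theorem lower_real {n : ℕ} (d : Fin n → ℕ) (hd : ∀ i, 1 ≤ d i) (i₀ : Fin n)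
    (r : ℕ) (hr : Typical d r) : low d ≤ r := by
  have h1 := lower d hd i₀ r hr
  have h2 : ((∏ i, d i : ℕ) : ℝ) ≤ ((r * (∑ i, (d i - 1) + 1) : ℕ) : ℝ) := by exact_mod_cast h1
  have h3 : ((∑ i, (d i - 1) : ℕ) : ℝ) = ∑ i, ((d i : ℝ) - 1) := by
    rw [Nat.cast_sum]
    exact Finset.sum_congr rfl fun i _ => by rw [Nat.cast_sub (hd i), Nat.cast_one]
  push_cast at h2 h3
  rw [h3] at h2
  have h4 : (0 : ℝ) ≤ ∑ i, ((d i : ℝ) - 1) :=
    Finset.sum_nonneg fun i _ => by
      have : (1 : ℝ) ≤ d i := by exact_mod_cast hd i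
      linarith
  unfold low
  rw [div_le_iff₀ (by linarith)]
  exact h2

/-- Let `1 ≤ n`, `2 ≤ d i` (`i < n`), `N = ∏ d i`, `s = ∑ (d i - 1)`, `low = N / (1 + s)`. If
`4 ≤ k` and `(1 + s) ^ (4 k) ≤ N`, then all typical ranks of the real `d 0 x .. x d (n-1)` tensors
are between `low` and `(1 + 2 / k ^ 2) * low`, and indeed all these tensors are sums of `R`
products, for some `R ≤ (1 + 2 / k ^ 2) * low`. -/
theorem result (n k : ℕ) (hn : 1 ≤ n) (hk : 4 ≤ k) (d : Fin n → ℕ) (hd : ∀ i, 2 ≤ d i)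
    (hN : (1 + ∑ i, (d i - 1)) ^ (4 * k) ≤ ∏ i, d i) :
    (∀ r, Typical d r → low d ≤ r ∧ r ≤ (1 + 2 / (k : ℝ) ^ 2) * low d) ∧
    ∃ R : ℕ, (R : ℝ) ≤ (1 + 2 / (k : ℝ) ^ 2) * low d ∧ ∀ T, IsSum d T R := by
  obtain ⟨R, hR, hT⟩ := many hk hn d hd hN
  have hT' : ∀ T, IsSum d T R := by
    intro T
    obtain ⟨v, hv⟩ := hT T
    refine ⟨v, ?_⟩
    rw [hv]
    funext x
    rw [Finset.sum_apply]
    rfl
  refine ⟨fun r hr => ⟨?_, ?_⟩, R, hR, hT'⟩
  · exact lower_real d (fun i => by have := hd i; omega) ⟨0, hn⟩ r hr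
  · have h2 : (r : ℝ) ≤ R := by exact_mod_cast typical_le hT' hr
    exact h2.trans hR

end Pool.Agent.Results.MP_b12e0e_ag.ManyFactors
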